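import Pool.Agent.H15.TG.Targets

/-!
Row EXT of tga_modules: extension of local nilpotency.
-/

set_option autoImplicit false

namespace Pool.Agent.H72.TG

open MvPolynomial Pool.Agent.H2.ST Pool.Agent.H15.TG

section abs

variable {α : Type*} (F G : α → α)

theorem comm1 (h : ∀ x, F (G x) = G (F x)) (N : ℕ) (x : α) : F (G^[N] x) = G^[N] (F x) := by
  induction N generalizing x with
  | zero => simp only [Function.iterate_zero, id]
  | succ N ih => rw [Function.iterate_succ_apply, Function.iterate_succ_apply, ih, h]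

theorem comm2 (h : ∀ x, F (G x) = G (F x)) (n N : ℕ) (x : α) :
    F^[n] (G^[N] x) = G^[N] (F^[n] x) := by
  induction n generalizing x with
  | zero => simp only [Function.iterate_zero, id]
  | succ n ih => rw [Function.iterate_succ_apply, Function.iterate_succ_apply, comm1 F G h, ih]

theorem stay (S : Set α) (h : ∀ x ∈ S, F x ∈ S) (n : ℕ) (x : α) (hx : x ∈ S) : F^[n] x ∈ S := by
  induction n generalizing x with
  | zero => simpa only [Function.iterate_zero, id] using hx
  | succ n ih =>
    rw [Function.iterate_succ_apply]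
    exact ih _ (h x hx)

theorem key [Zero α] (S : Set α) (hcomm : ∀ x, F (G x) = G (F x)) (hF : ∀ x ∈ S, F x ∈ S)
    (hG : ∀ x ∈ S, G x ∈ S) (hC : ∀ x ∈ S, F x = 0 → ∃ n : ℕ, G^[n] x = 0) (n : ℕ) (x : α)
    (hx : x ∈ S) (h0 : F^[n] x = 0) : ∃ N : ℕ, G^[N] x = 0 := by
  induction n generalizing x with
  | zero =>
    refine ⟨0, ?_⟩
    simpa only [Function.iterate_zero, id] using h0
  | succ n ih =>
    rw [Function.iterate_succ_apply'] at h0
    obtain ⟨N, hN⟩ := hC _ (stay F S hF n x hx) h0
    rw [← comm2 F G hcomm] at hN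
    obtain ⟨M, hM⟩ := ih _ (stay G S hG N x hx) hN
    refine ⟨M + N, ?_⟩
    rw [Function.iterate_add_apply]
    exact hM

end abs

theorem pf_EXT : T_EXT := by
  intro k _ m K f g hf hg hfg hnil hC x hx
  obtain ⟨n, hn⟩ := hnil x hx
  refine key (br f) (br g) (K : Set (Pol k m)) ?_ hf hg ?_ n x hx hn
  · intro x
    rw [jac, hfg, zero_br, zero_add]
  · intro y hy hy0
    exact hC y (mem_Cf.2 ⟨hy, hy0⟩)

end Pool.Agent.H72.TG
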