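import Mathlib

/-!
# MP_686501_lc: tame Polish groups, definitions for groups and spaces in arbitrary universes
-/

open Topology

namespace TamePolish

universe u v

/-- The abelian topological group `G` is tame: for every continuous action on a Polish space `X` the
orbit equivalence relation is a Borel subset of `X × X`. -/
def Tame (G : Type u) [AddCommGroup G] [TopologicalSpace G] : Prop :=
  ∀ (X : Type v) [TopologicalSpace X] [PolishSpace X] [AddAction G X] [ContinuousVAdd G X],
    @MeasurableSet (X × X) (borel (X × X)) {p : X × X | ∃ g : G, g +ᵥ p.1 = p.2}

end TamePolish
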