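import Pool.Agent.H72.TG.Stmt
import Pool.Agent.H72.Embed

/-!
# Tameness does not depend on the universes
-/

open Topology Set

namespace TamePolish

universe u v w

/-- a second countable `T0` space has at most continuum many points -/
theorem small_of_polish (X : Type u) [TopologicalSpace X] [SecondCountableTopology X] [T0Space X] :
    Small.{0} X := by
  obtain ⟨f, hf⟩ := (TopologicalSpace.countable_countableBasis X).exists_injective_nat
  have inj : Function.Injective (fun x : X =>
      {n : ℕ | ∃ U : TopologicalSpace.countableBasis X, f U = n ∧ x ∈ (U : Set X)}) := by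
    intro x y hxy
    have key : ∀ U : TopologicalSpace.countableBasis X, x ∈ (U : Set X) ↔ y ∈ (U : Set X) := by
      intro U
      have h1 : f U ∈ {n : ℕ | ∃ U : TopologicalSpace.countableBasis X, f U = n ∧
          x ∈ (U : Set X)} ↔ f U ∈ {n : ℕ | ∃ U : TopologicalSpace.countableBasis X, f U = n ∧
          y ∈ (U : Set X)} := by
        rw [show {n : ℕ | ∃ U : TopologicalSpace.countableBasis X, f U = n ∧ x ∈ (U : Set X)} =
          {n : ℕ | ∃ U : TopologicalSpace.countableBasis X, f U = n ∧ y ∈ (U : Set X)} from hxy]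
      constructor
      · intro h
        obtain ⟨U', h2, h3⟩ := h1.1 ⟨U, rfl, h⟩
        rwa [hf h2] at h3
      · intro h
        obtain ⟨U', h2, h3⟩ := h1.2 ⟨U, rfl, h⟩
        rwa [hf h2] at h3
    by_contra hne
    obtain ⟨O, hO, hxor⟩ := exists_isOpen_xor'_mem hne
    rcases hxor with ⟨h1, h2⟩ | ⟨h1, h2⟩
    · obtain ⟨U, hU, hx, hs⟩ := (TopologicalSpace.isBasis_countableBasis X).exists_subset_of_mem_open
        h1 hO
      exact h2 (hs ((key ⟨U, hU⟩).1 hx))
    · obtain ⟨U, hU, hx, hs⟩ := (TopologicalSpace.isBasis_countableBasis X).exists_subset_of_mem_open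
        h1 hO
      exact h2 (hs ((key ⟨U, hU⟩).2 hx))
  exact small_of_injective inj

/-- transfer of tameness: `G` acts on `X`, `G'` on `X'`, compatible homeomorphisms -/
theorem borel_transfer {G : Type u} {G' : Type v} {X : Type w} {X' : Type*} [AddCommGroup G]
    [AddCommGroup G'] [TopologicalSpace X] [TopologicalSpace X'] [AddAction G X] [AddAction G' X']
    (e : G ≃ G') (h : X ≃ₜ X') (hc : ∀ g x, h (g +ᵥ x) = e g +ᵥ h x)
    (hm : @MeasurableSet (X' × X') (borel (X' × X')) {p : X' × X' | ∃ g : G', g +ᵥ p.1 = p.2}) :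
    @MeasurableSet (X × X) (borel (X × X)) {p : X × X | ∃ g : G, g +ᵥ p.1 = p.2} := by
  have hcont : Continuous (Prod.map h h) := h.continuous.prodMap h.continuous
  letI : MeasurableSpace (X × X) := borel (X × X)
  letI : MeasurableSpace (X' × X') := borel (X' × X')
  haveI : BorelSpace (X × X) := ⟨rfl⟩
  haveI : BorelSpace (X' × X') := ⟨rfl⟩
  have h1 := hcont.measurable hm
  convert h1 using 1
  ext ⟨x, y⟩
  simp only [mem_setOf_eq, mem_preimage, Prod.map_apply]
  constructor
  · rintro ⟨g, hg⟩
    exact ⟨e g, by rw [← hc, hg]⟩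
  · rintro ⟨g, hg⟩
    refine ⟨e.symm g, h.injective ?_⟩
    rw [hc, e.apply_symm_apply, hg]

theorem polish_of_homeo {X : Type u} {Y : Type v} [TopologicalSpace X] [TopologicalSpace Y]
    [PolishSpace X] (h : X ≃ₜ Y) : PolishSpace Y :=
  h.symm.isClosedEmbedding.polishSpace

/-- tameness for Polish spaces in `Type` gives tameness for all Polish spaces -/
theorem tame_univ (G : Type u) [AddCommGroup G] [TopologicalSpace G] (h : Tame.{u, 0} G) :
    Tame.{u, v} G := by
  intro X _ _ _ _
  haveI : Small.{0} X := small_of_polish X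
  letI : AddAction G (Shrink.{0} X) :=
    { vadd := fun g x => equivShrink X (g +ᵥ (equivShrink X).symm x)
      zero_vadd := fun x => by
        show equivShrink X ((0 : G) +ᵥ (equivShrink X).symm x) = x
        rw [zero_vadd, Equiv.apply_symm_apply]
      add_vadd := fun a b x => by
        show equivShrink X ((a + b) +ᵥ (equivShrink X).symm x) =
          equivShrink X (a +ᵥ (equivShrink X).symm (equivShrink X (b +ᵥ (equivShrink X).symm x)))
        rw [Equiv.symm_apply_apply, add_vadd] }
  have hsm : ∀ (g : G) (x : Shrink.{0} X), g +ᵥ x =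
    Shrink.homeomorph X (g +ᵥ (Shrink.homeomorph X).symm x) := fun _ _ => rfl
  haveI : PolishSpace (Shrink.{0} X) := polish_of_homeo (Shrink.homeomorph X)
  haveI : ContinuousVAdd G (Shrink.{0} X) := ⟨by
    have h1 : Continuous fun p : G × Shrink.{0} X =>
        Shrink.homeomorph X (p.1 +ᵥ (Shrink.homeomorph X).symm p.2) :=
      (Shrink.homeomorph X).continuous.comp
        (continuous_fst.vadd ((Shrink.homeomorph X).symm.continuous.comp continuous_snd))
    exact h1⟩
  refine borel_transfer (Equiv.refl G) (Shrink.homeomorph X) (fun g x => ?_) (h (Shrink.{0} X))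
  rw [hsm]
  simp

/-- tameness of a copy of the group -/
theorem tame_copy {G : Type u} {G' : Type v} [AddCommGroup G] [TopologicalSpace G]
    [AddCommGroup G'] [TopologicalSpace G'] (e : G ≃+ G') (he : Continuous e)
    (h : Tame.{u, w} G) : Tame.{v, w} G' := by
  intro X _ _ i1 i2
  letI : AddAction G X :=
    { vadd := fun g x => e g +ᵥ x
      zero_vadd := fun x => by
        show e 0 +ᵥ x = x
        rw [map_zero, zero_vadd]
      add_vadd := fun a b x => by
        show e (a + b) +ᵥ x = e a +ᵥ (e b +ᵥ x)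
        rw [map_add, add_vadd] }
  have hsm : ∀ (g : G) (x : X), g +ᵥ x = e g +ᵥ x := fun _ _ => rfl
  haveI : ContinuousVAdd G X := ⟨by
    have h1 : Continuous fun p : G × X => e p.1 +ᵥ p.2 :=
      (he.comp continuous_fst).vadd continuous_snd
    exact h1⟩
  have h3 := h X
  refine borel_transfer e.symm.toEquiv (Homeomorph.refl X) (fun g x => ?_) h3
  show g +ᵥ x = e (e.symm g) +ᵥ x
  rw [e.apply_symm_apply]

/-- the theorem for groups in arbitrary universes -/
theorem main (G : Type u) [AddCommGroup G] [TopologicalSpace G] [PolishSpace G]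
    [NonarchimedeanAddGroup G] (hG : Tame.{u, v} G) :
    ∃ (H : ℕ → Type) (_ : ∀ n, AddCommGroup (H n)) (_ : ∀ n, TopologicalSpace (H n)),
      (∀ n, DiscreteTopology (H n)) ∧ (∀ n, Countable (H n)) ∧ Tame.{0, w} ((n : ℕ) → H n) ∧
      ∃ f : G →+ ((n : ℕ) → H n), IsClosedEmbedding f := by
  haveI : Small.{0} G := small_of_polish G
  let e : G ≃+ Shrink.{0} G := (Shrink.addEquiv (α := G)).symm
  have he : ∀ x, e x = Shrink.homeomorph G x := fun _ => rfl
  haveI : PolishSpace (Shrink.{0} G) := polish_of_homeo (Shrink.homeomorph G)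
  have hcl : IsClosedEmbedding e := (Shrink.homeomorph G).isClosedEmbedding
  have hop : IsOpenEmbedding e := (Shrink.homeomorph G).isOpenEmbedding
  haveI : IsTopologicalAddGroup (Shrink.{0} G) := by
    have h1 : Continuous e.symm := (Shrink.homeomorph G).symm.continuous
    refine { continuous_add := ?_, continuous_neg := ?_ }
    · have h2 : (fun p : Shrink.{0} G × Shrink.{0} G => p.1 + p.2) =
          fun p => e (e.symm p.1 + e.symm p.2) := by
        funext p
        rw [map_add, e.apply_symm_apply, e.apply_symm_apply]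
      rw [h2]
      exact hcl.continuous.comp ((h1.comp continuous_fst).add (h1.comp continuous_snd))
    · have h2 : (fun p : Shrink.{0} G => -p) = fun p => e (-e.symm p) := by
        funext p
        rw [map_neg, e.apply_symm_apply]
      rw [h2]
      exact hcl.continuous.comp h1.neg
  haveI : NonarchimedeanAddGroup (Shrink.{0} G) :=
    NonarchimedeanAddGroup.nonarchimedean_of_emb (e : G →+ Shrink.{0} G) hop
  have hT : Tame.{0, v} (Shrink.{0} G) := tame_copy e hcl.continuous hG
  have hT0 : Tame.{0, 0} (Shrink.{0} G) := by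
    intro X _ _ _ _
    -- lift the action to a space in `Type v`
    letI : AddAction (Shrink.{0} G) (ULift.{v} X) :=
      { vadd := fun g x => ⟨g +ᵥ x.down⟩
        zero_vadd := fun x => by
          show (⟨(0 : Shrink.{0} G) +ᵥ x.down⟩ : ULift.{v} X) = x
          rw [zero_vadd]
        add_vadd := fun a b x => by
          show (⟨(a + b) +ᵥ x.down⟩ : ULift.{v} X) = ⟨a +ᵥ (b +ᵥ x.down)⟩
          rw [add_vadd] }
    haveI : PolishSpace (ULift.{v} X) := polish_of_homeo Homeomorph.ulift.symm
    haveI : ContinuousVAdd (Shrink.{0} G) (ULift.{v} X) := ⟨by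
      have h1 : Continuous fun p : Shrink.{0} G × ULift.{v} X =>
          (Homeomorph.ulift.symm (p.1 +ᵥ Homeomorph.ulift p.2) : ULift.{v} X) :=
        Homeomorph.ulift.symm.continuous.comp
          (continuous_fst.vadd (Homeomorph.ulift.continuous.comp continuous_snd))
      exact h1⟩
    exact borel_transfer (Equiv.refl _) (Homeomorph.ulift.{v}.symm : X ≃ₜ ULift.{v} X)
      (fun g x => rfl) (hT (ULift.{v} X))
  have hG' : Pool.Agent.H72.Tame (Shrink.{0} G) := hT0
  obtain ⟨W, h1, h2, h3, h4, h5⟩ := Pool.Agent.H72.structure_of_tame (Shrink.{0} G) hG'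
  obtain ⟨H, i1, i2, h6, h7, h8, f, hf⟩ := Pool.Agent.H72.exists_embedding (Shrink.{0} G) W h1 h2
    h3 h4 h5
  refine ⟨H, i1, i2, h6, h7, tame_univ _ h8, f.comp (e : G →+ Shrink.{0} G), ?_⟩
  exact hf.comp hcl

end TamePolish
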